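import Pool.Agent.ISB.StmtsC
import Pool.Agent.Helper41_Isbell.Nilp

/-!
Row FPF of squad ISB.
-/

set_option autoImplicit false

namespace Pool.Agent.ISB.H14

open Pool.Agent.ISB MulAction

theorem fpf : FpfStmt := by
  classical
  intro G Ω _ _ _ _ r a c P hr hcard horb hcl hbig
  have hcl' : (⊤ : Subgroup P).lowerCentralSeries c = ⊥ := by
    rw [← Subgroup.map_subtype_inj, Subgroup.map_bot, Subgroup.top_subtype_lowerCentralSeries]
    exact hcl
  have hq : Nat.card (orbitRel.Quotient P Ω) = r := by
    have e := MulAction.selfEquivSigmaOrbits P Ω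
    have h1 : Nat.card Ω = Nat.card (orbitRel.Quotient P Ω) * 2 ^ a := by
      have : Finite (orbitRel.Quotient P Ω) := Quotient.finite _
      have := Fintype.ofFinite (orbitRel.Quotient P Ω)
      rw [Nat.card_congr e, Nat.card_sigma, Finset.sum_congr rfl (fun ω _ => horb ω.out)]
      simp [Nat.card_eq_fintype_card]
    rw [hcard, mul_comm] at h1
    exact (Nat.eq_of_mul_eq_mul_right (Nat.pow_pos (by norm_num)) h1).symm
  have := Pool.Agent.Helper41.Isbell.exists_fpf_of_central_chain (S := P) (X := Ω) c
    (fun j => (⊤ : Subgroup P).lowerCentralSeries (c - j)) (fun j => inferInstance)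
    (by
      intro z hz x
      simp only [Nat.sub_zero] at hz
      rw [hcl', Subgroup.mem_bot] at hz
      rw [hz, one_smul])
    (by simp)
    (by
      intro j hj
      exact Subgroup.lowerCentralSeries_antitone _ (by omega))
    (by
      intro j hj z hz g
      have h2 : c - j = (c - (j + 1)) + 1 := by omega
      rw [h2, Subgroup.lowerCentralSeries_succ]
      exact Subgroup.commutator_mem_commutator hz (Subgroup.mem_top g))
    r (2 ^ a) hq.le (fun x => (horb x).ge) hbig
  obtain ⟨g, hg⟩ := this
  exact ⟨g, g.2, fun x => hg x⟩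

end Pool.Agent.ISB.H14
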