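import Pool.Agent.ISB.StmtsC

/-!
The theorem for permutation groups from the rows FIN and SYL (MP_4f548a_al).
-/

set_option autoImplicit false

namespace Pool.Agent.ISB.H14

open Pool.Agent.ISB

theorem final (h1 : FinStmt) (h2 : SylStmt) (r n : ℕ) (hr : r.Prime) (hodd : Odd r) :
    ∃ A : ℕ, ∀ a, A ≤ a → ∀ G : Subgroup (Equiv.Perm (Fin (2 ^ a * r))),
      (∀ x y : Fin (2 ^ a * r), ∃ g ∈ G, g x = y) →
      ∀ P : Subgroup G, P.Normal → IsPGroup 2 P →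
      ((∀ x : Fin (2 ^ a * r), (MulAction.orbit P x).ncard = 2 ^ a) ∨
        ∃ Q : Sylow 2 G, (Q : Subgroup G) = P) →
      (∃ x : Fin (2 ^ a * r), (MulAction.stabilizer G x ⊓ P).lowerCentralSeries n = ⊥) →
      ∃ g ∈ G, (∀ x : Fin (2 ^ a * r), g x ≠ x) ∧ ∃ k : ℕ, orderOf g = 2 ^ k := by
  obtain ⟨A, hA⟩ := h1 r n hr hodd
  refine ⟨A, fun a ha G htr P hPn hP hor hst => ?_⟩
  have htr' : ∀ x y : Fin (2 ^ a * r), ∃ g : G, g • x = y := by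
    intro x y
    obtain ⟨g, hg, hgx⟩ := htr x y
    exact ⟨⟨g, hg⟩, hgx⟩
  have hcard : Nat.card (Fin (2 ^ a * r)) = 2 ^ a * r := by simp
  have horb : ∀ x : Fin (2 ^ a * r), Nat.card (MulAction.orbit P x) = 2 ^ a := by
    rcases hor with h | ⟨Q, hQ⟩
    · intro x
      exact h x
    · subst hQ
      exact h2 G (Fin (2 ^ a * r)) r a Q hodd hPn htr' hcard
  obtain ⟨g, hg, hfix⟩ := hA a ha G (Fin (2 ^ a * r)) P hP hPn htr' hcard horb hst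
  refine ⟨g, g.2, hfix, ?_⟩
  obtain ⟨k, hk⟩ := (IsPGroup.iff_orderOf.1 hP) ⟨g, hg⟩
  refine ⟨k, ?_⟩
  rw [Subgroup.orderOf_coe]
  rw [← hk]
  exact (Subgroup.orderOf_mk g hg).symm

end Pool.Agent.ISB.H14
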