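import Pool.Agent.ISB.StmtsA

/-!
Row GEN of squad ISB.
-/

set_option autoImplicit false

namespace Pool.Agent.ISB.H14

open Pool.Agent.ISB

variable {F L : Type} [Field F] [LieRing L] [LieAlgebra F L]

theorem mem_br' {A B : Submodule F L} {a b : L} (ha : a ∈ A) (hb : b ∈ B) : ⁅a, b⁆ ∈ br A B :=
  Submodule.subset_span ⟨a, ha, b, hb, rfl⟩

theorem br_le' {A B D : Submodule F L} (h : ∀ a ∈ A, ∀ b ∈ B, ⁅a, b⁆ ∈ D) : br A B ≤ D := by
  unfold br
  rw [Submodule.span_le]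
  rintro z ⟨a, ha, b, hb, rfl⟩
  exact h a ha b hb

theorem mem_gen {σ : L →ₗ[F] L} {ζ : F} {r : ℕ} {D : Submodule F L} {k χ : ℕ} {z : L} (h1 : k ≤ χ)
    (h2 : χ < r) (h3 : z ∈ D ⊓ W σ ζ χ) : z ∈ gen σ ζ r D k :=
  LieSubalgebra.subset_lieSpan ⟨χ, h1, h2, h3⟩

theorem gen_cl (σ : L →ₗ[F] L) (ζ : F) (r : ℕ) (D : Submodule F L) (k : ℕ) :
    ∀ a ∈ gen σ ζ r D k, ∀ b ∈ gen σ ζ r D k, ⁅a, b⁆ ∈ gen σ ζ r D k := by
  intro a ha b hb
  exact (LieSubalgebra.lieSpan F L {z | ∃ χ, k ≤ χ ∧ χ < r ∧ z ∈ D ⊓ W σ ζ χ}).lie_mem' ha hb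

/-- induction principle -/
theorem gen_ind {σ : L →ₗ[F] L} {ζ : F} {r : ℕ} {D : Submodule F L} {k : ℕ} (p : L → Prop)
    (h0 : p 0) (hadd : ∀ a b, p a → p b → p (a + b)) (hsm : ∀ (c : F) a, p a → p (c • a))
    (hgen : ∀ χ, k ≤ χ → χ < r → ∀ z ∈ D ⊓ W σ ζ χ, p z)
    (hbr : ∀ a ∈ gen σ ζ r D k, ∀ b ∈ gen σ ζ r D k, p a → p b → p ⁅a, b⁆) :
    ∀ a ∈ gen σ ζ r D k, p a := by
  intro a ha
  have : a ∈ gen σ ζ r D k ∧ p a := by
    let K : LieSubalgebra F L :=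
      { carrier := {a | a ∈ gen σ ζ r D k ∧ p a}
        add_mem' := fun {a b} ha hb => ⟨Submodule.add_mem _ ha.1 hb.1, hadd a b ha.2 hb.2⟩
        zero_mem' := ⟨Submodule.zero_mem _, h0⟩
        smul_mem' := fun c a ha => ⟨Submodule.smul_mem _ c ha.1, hsm c a ha.2⟩
        lie_mem' := fun {a b} ha hb => ⟨gen_cl σ ζ r D k a ha.1 b hb.1,
          hbr a ha.1 b hb.1 ha.2 hb.2⟩ }
    have hK : LieSubalgebra.lieSpan F L {z | ∃ χ, k ≤ χ ∧ χ < r ∧ z ∈ D ⊓ W σ ζ χ} ≤ K := by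
      rw [LieSubalgebra.lieSpan_le]
      rintro z ⟨χ, h1, h2, h3⟩
      exact ⟨mem_gen h1 h2 h3, hgen χ h1 h2 z h3⟩
    exact hK ha
  exact this.2

theorem gen_row (_hCal : CalStmt) (hEig : EigStmt) : GenStmt := by
  intro F L _ _ _ r σ ζ hA A D hDA hDb hDs
  have hDD : ∀ a ∈ D, ∀ b ∈ D, ⁅a, b⁆ ∈ D := fun a ha b hb => hDb (mem_br' ha (hDA hb))
  have h1 : ∀ k, gen σ ζ r D k ≤ D := by
    intro k a ha
    exact gen_ind (p := fun a => a ∈ D) D.zero_mem (fun a b => D.add_mem) (fun c a => D.smul_mem c)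
      (fun χ _ _ z hz => hz.1) (fun a _ b _ ha hb => hDD a ha b hb) a ha
  refine ⟨h1, ?_, ?_, ?_, ?_, ?_, fun k => gen_cl σ ζ r D k⟩
  · intro a ha
    obtain ⟨c, hc, hs⟩ := (hEig F L r σ ζ hA).2.2.1 D hDs a ha
    rw [hs]
    exact Submodule.sum_mem _ fun i hi => mem_gen (Nat.zero_le i) (Finset.mem_range.1 hi) (hc i)
  · rw [eq_bot_iff]
    intro a ha
    exact gen_ind (p := fun a => a ∈ (⊥ : Submodule F L)) (Submodule.zero_mem _)
      (fun a b => Submodule.add_mem _) (fun c a => Submodule.smul_mem _ c)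
      (fun χ h1 h2 z _ => absurd h2 (by omega))
      (fun a _ b _ ha _ => by
        rw [Submodule.mem_bot] at ha ⊢
        rw [ha, zero_lie]) a ha
  · intro D' k hD' hk a ha
    refine gen_ind (p := fun a => a ∈ gen σ ζ r D' (k + 1)) (Submodule.zero_mem _)
      (fun a b => Submodule.add_mem _) (fun c a => Submodule.smul_mem _ c) ?_
      (fun a _ b _ ha hb => gen_cl σ ζ r D' (k + 1) a ha b hb) a ha
    intro χ h3 h4 z hz
    rcases Nat.eq_or_lt_of_le h3 with h | h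
    · subst h
      exact hk hz
    · exact mem_gen h h4 ⟨hD' hz.1, hz.2⟩
  · intro k
    refine br_le' fun d hd a ha => ?_
    revert d
    refine gen_ind (p := fun a => ∀ d ∈ D, ⁅d, a⁆ ∈ ⨆ χ ∈ Finset.Ico k r, br D (D ⊓ W σ ζ χ))
      ?_ ?_ ?_ ?_ ?_ a ha
    · intro d _
      rw [lie_zero]
      exact Submodule.zero_mem _
    · intro a b ha hb d hd
      rw [lie_add]
      exact Submodule.add_mem _ (ha d hd) (hb d hd)
    · intro c a ha d hd
      rw [lie_smul]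
      exact Submodule.smul_mem _ c (ha d hd)
    · intro χ h3 h4 z hz d hd
      exact Submodule.mem_iSup_of_mem χ (Submodule.mem_iSup_of_mem (Finset.mem_Ico.2 ⟨h3, h4⟩)
        (mem_br' hd hz))
    · intro a ha b hb h5 h6 d hd
      rw [leibniz_lie, ← lie_skew a ⁅d, b⁆, ← sub_eq_add_neg]
      exact Submodule.sub_mem _ (h6 _ (hDD d hd a (h1 k ha))) (h5 _ (hDD d hd b (h1 k hb)))
  · intro k
    refine br_le' fun w hw a ha => ?_
    refine gen_ind (p := fun a => ⁅w, a⁆ ∈ gen σ ζ r D k) ?_ ?_ ?_ ?_ ?_ a ha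
    · rw [lie_zero]
      exact Submodule.zero_mem _
    · intro a b ha hb
      rw [lie_add]
      exact Submodule.add_mem _ ha hb
    · intro c a ha
      rw [lie_smul]
      exact Submodule.smul_mem _ c ha
    · intro χ h3 h4 z hz
      refine mem_gen h3 h4 ⟨?_, ?_⟩
      · rw [← lie_skew]
        exact Submodule.neg_mem _ (hDb (mem_br' hz.1 hw.1))
      · have := (hEig F L r σ ζ hA).2.1 0 χ w hw.2 z hz.2
        rwa [zero_add] at this
    · intro a ha b hb h5 h6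
      rw [leibniz_lie]
      exact Submodule.add_mem _ (gen_cl σ ζ r D k _ h5 _ hb) (gen_cl σ ζ r D k _ ha _ h6)

end Pool.Agent.ISB.H14
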