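import Pool.Agent.Helper27_ISB.CAL
import Pool.Agent.Helper77_ISB.IDL
import Pool.Agent.Helper53_ISB.EIG
import Pool.Agent.Helper75_ISB.KRB
import Pool.Agent.Helper82_ISB.KRC
import Pool.Agent.Helper52_ISB.KRK
import Pool.Agent.Helper98_ISB.MLT
import Pool.Agent.Helper94_ISB.SPN
import Pool.Agent.Helper16_ISB.COM
import Pool.Agent.Helper41_ISB.PGH
import Pool.Agent.Helper68_ISB.EON
import Pool.Agent.Helper9_ISB.NLX
import Pool.Agent.Helper51_ISB.NLA
import Pool.Agent.Helper88_ISB.HLS
import Pool.Agent.Helper67_ISB.HAL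
import Pool.Agent.Helper62_ISB.LIE
import Pool.Agent.Helper41_ISB.GMC
import Pool.Agent.Helper47_ISB.DOP
import Pool.Agent.Helper19_ISB.KAS
import Pool.Agent.Helper3_ISB.FAI
import Pool.Agent.Helper23_ISB.CVA
import Pool.Agent.Helper19_ISB.CVB
import Pool.Agent.Helper70_ISB.GRP
import Pool.Agent.Helper38_ISB.CNT
import Pool.Agent.Helper91_ISB.STA
import Pool.Agent.Helper10_ISB.STB
import Pool.Agent.Helper41_ISB.STC
import Pool.Agent.Helper80_ISB.TRV
import Pool.Agent.Helper81_ISB.KOR
import Pool.Agent.Helper41_ISB.ROA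
import Pool.Agent.Helper95_ISB.ROB
import Pool.Agent.Helper90_ISB.CLB
import Pool.Agent.Helper34_ISB.SYL
import Pool.Agent.Helper45_ISB.FIN
import Pool.Agent.Helper55_ISB.NLB
import Pool.Agent.Helper55_ISB.GID
import Pool.Agent.Helper14_ISB.GEN
import Pool.Agent.Helper14_ISB.FPF
import Pool.Agent.Helper14_ISB.Final

/-!
MP_4f548a_al, squad ISB: composition of all the rows.
-/

namespace Pool.Agent.ISB.H14

/-- the rows FIN and SYL -/
theorem rows : FinStmt ∧ SylStmt := by
  have hCal : CalStmt := H27.cal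
  have hIdl : IdlStmt := H77.idl hCal
  have hEig : EigStmt := H53.eig
  have hGen : GenStmt := gen_row hCal hEig
  have hKrb : KrbStmt := H75.krb hCal hIdl hEig hGen
  have hKrc : KrcStmt := H82.krc hCal hIdl hGen hKrb
  have hKrk : KrkStmt := H52.krk hIdl hGen hKrc
  have hMlt : MltStmt := H98.mlt
  have hSpn : SpnStmt := H94.spn hCal
  have hCom : ComStmt := H16.com hIdl hMlt
  have hPgh : PghStmt := H41.pgh
  have hEon : EonStmt := H68.eon hCal hEig hMlt
  have hNlx : NlxStmt := H9.nlx hIdl hMlt hSpn hCom hPgh hEon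
  have hNla : NlaStmt := H51.nla hIdl hEig hMlt hCom hPgh hEon hNlx
  have hNlb : NlbStmt := H55.nlb hIdl hEig hMlt hEon hNla
  have hHls : HlsStmt := H88.hls hCal hIdl
  have hHal : HalStmt := H67.hal hHls
  have hLie : LieStmt := H62.lie hEon hKrk hNlb hHal
  have hGmc : GmcStmt := H41.gmc
  have hGid : GidStmt := H55.gid hGmc
  have hDop : DopStmt := H47.dop hGmc hGid
  have hKas : KasStmt := H19.kas hGmc
  have hFai : FaiStmt := H3.fai hGmc hDop
  have hCva : CvaStmt := H23.cva hGmc hDop hKas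
  have hCvb : CvbStmt := H19.cvb hDop hKas
  have hGrp : GrpStmt := H70.grp hLie hGmc hDop hKas hFai hCva hCvb
  have hCnt : CntStmt := H38.cnt
  have hSta : StaStmt := H91.sta hCnt
  have hStb : StbStmt := H10.stb hSta
  have hStc : StcStmt := H41.stc hStb
  have hTrv : TrvStmt := H80.trv hStc
  have hKor : KorStmt := H81.kor hTrv
  have hRoa : RoaStmt := H41.roa
  have hRob : RobStmt := H95.rob hRoa
  have hClb : ClbStmt := H90.clb hGrp hKor hRob
  exact ⟨H45.fin hClb fpf, H34.syl⟩

theorem fin_row : FinStmt := rows.1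

theorem syl_row : SylStmt := rows.2

end Pool.Agent.ISB.H14
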